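import Mathlib

namespace Pool.Agent.Results.MP_97e2c3_nt.DivFourN

open Finset
open scoped Nat

/-! ### Triples with a given sum -/

/-- The total of a triple. -/
def tot (x : ℕ × ℕ × ℕ) : ℕ := x.1 + x.2.1 + x.2.2

/-- Triples of naturals with sum `M`. -/
def T (M : ℕ) : Finset (ℕ × ℕ × ℕ) :=
  ((range (M + 1)) ×ˢ (range (M + 1)) ×ˢ (range (M + 1))).filter (fun x => tot x = M)

lemma mem_T {M : ℕ} {x : ℕ × ℕ × ℕ} : x ∈ T M ↔ tot x = M := by
  obtain ⟨a, b, c⟩ := x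
  rw [T, mem_filter, mem_product, mem_product]
  simp only [mem_range, tot]
  omega

/-- Exchange of the first and the third entry. -/
def sw (x : ℕ × ℕ × ℕ) : ℕ × ℕ × ℕ := (x.2.2, x.2.1, x.1)

lemma sw_sw (x : ℕ × ℕ × ℕ) : sw (sw x) = x := rfl

lemma tot_sw (x : ℕ × ℕ × ℕ) : tot (sw x) = tot x := by
  simp only [tot, sw]; omega

/-! ### The part of the factorial prime to `p` -/

/-- Product of the integers in `[1, N]` that are not divisible by `p`. -/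
def F (p : ℕ) : ℕ → ℕ
  | 0 => 1
  | N + 1 => F p N * (if p ∣ N + 1 then 1 else N + 1)

lemma F_succ_dvd {p N : ℕ} (h : p ∣ N + 1) : F p (N + 1) = F p N := by
  simp [F, h]

lemma F_succ_not {p N : ℕ} (h : ¬ p ∣ N + 1) : F p (N + 1) = F p N * (N + 1) := by
  simp [F, h]

lemma fact_eq {p : ℕ} (hp : 0 < p) (N : ℕ) : N ! = F p N * p ^ (N / p) * (N / p)! := by
  induction N with
  | zero => simp [F]
  | succ N ih =>
    by_cases h : p ∣ N + 1
    · rw [F_succ_dvd h, Nat.succ_div_of_dvd h, Nat.factorial_succ, ih, pow_succ,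
        Nat.factorial_succ]
      have h2 : N + 1 = p * (N / p + 1) := by
        have h3 := Nat.succ_div_of_dvd h
        obtain ⟨k, hk⟩ := h
        rw [hk, Nat.mul_div_cancel_left _ hp] at h3
        rw [hk, h3]
      calc (N + 1) * (F p N * p ^ (N / p) * (N / p)!)
          = (p * (N / p + 1)) * (F p N * p ^ (N / p) * (N / p)!) := by rw [← h2]
        _ = _ := by ring
    · rw [F_succ_not h, Nat.succ_div_of_not_dvd h, Nat.factorial_succ, ih]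
      ring

lemma F_coprime {p : ℕ} (hp : p.Prime) (N : ℕ) : Nat.Coprime (F p N) p := by
  induction N with
  | zero => simp [F]
  | succ N ih =>
    by_cases h : p ∣ N + 1
    · rw [F_succ_dvd h]; exact ih
    · rw [F_succ_not h]
      exact Nat.Coprime.mul_left ih ((Nat.Prime.coprime_iff_not_dvd hp).mpr h).symm

/-- Block shift. -/
lemma F_add_pow {p k : ℕ} (hk : 1 ≤ k) (N : ℕ) :
    F p (N + p ^ k) ≡ F p (p ^ k) * F p N [MOD p ^ k] := by
  induction N with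
  | zero => simp [F]; rfl
  | succ N ih =>
    have hpk : p ∣ p ^ k := dvd_pow_self p (by omega)
    have e : N + 1 + p ^ k = (N + p ^ k) + 1 := by ring
    by_cases h : p ∣ N + 1
    · have h' : p ∣ (N + p ^ k) + 1 := by
        rw [← e]; exact dvd_add h hpk
      rw [e, F_succ_dvd h', F_succ_dvd h]; exact ih
    · have h' : ¬ p ∣ (N + p ^ k) + 1 := by
        rw [← e]; intro h2; exact h ((Nat.dvd_add_left hpk).mp h2)
      rw [e, F_succ_not h', F_succ_not h, ← mul_assoc]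
      refine Nat.ModEq.mul ih ?_
      rw [← e]
      exact (Nat.modEq_iff_dvd' (by omega)).mpr (by simp) |>.symm

lemma F_add_mul_pow {p k : ℕ} (hk : 1 ≤ k) (r t : ℕ) :
    F p (r + p ^ k * t) ≡ F p (p ^ k) ^ t * F p r [MOD p ^ k] := by
  induction t with
  | zero => simp; rfl
  | succ t ih =>
    have e : r + p ^ k * (t + 1) = (r + p ^ k * t) + p ^ k := by ring
    rw [e]
    refine (F_add_pow hk _).trans ?_
    rw [pow_succ', mul_assoc]
    exact Nat.ModEq.mul_left _ ih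

/-- `F(a) F(b) F(c)`. -/
def P (p : ℕ) (x : ℕ × ℕ × ℕ) : ℕ := F p x.1 * F p x.2.1 * F p x.2.2

lemma P_sw (p : ℕ) (x : ℕ × ℕ × ℕ) : P p (sw x) = P p x := by
  simp only [P, sw]; ring

lemma P_coprime {p : ℕ} (hp : p.Prime) (x : ℕ × ℕ × ℕ) : Nat.Coprime (P p x) p :=
  Nat.Coprime.mul_left (Nat.Coprime.mul_left (F_coprime hp _) (F_coprime hp _)) (F_coprime hp _)

lemma P_modEq {p k : ℕ} (hp : 0 < p) (hk : 1 ≤ k) (x : ℕ × ℕ × ℕ) :
    P p x ≡ F p (p ^ k) ^ ((tot x - (x.1 % p ^ k + x.2.1 % p ^ k + x.2.2 % p ^ k)) / p ^ k)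
      * (F p (x.1 % p ^ k) * F p (x.2.1 % p ^ k) * F p (x.2.2 % p ^ k)) [MOD p ^ k] := by
  obtain ⟨a, b, c⟩ := x
  have hpk : 0 < p ^ k := by positivity
  have key : ∀ N : ℕ, F p N ≡ F p (p ^ k) ^ (N / p ^ k) * F p (N % p ^ k) [MOD p ^ k] := by
    intro N
    have := F_add_mul_pow hk (N % p ^ k) (N / p ^ k) (p := p)
    rwa [Nat.mod_add_div] at this
  have hdiv : (tot (a, b, c) - (a % p ^ k + b % p ^ k + c % p ^ k)) / p ^ k
      = a / p ^ k + b / p ^ k + c / p ^ k := by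
    have h1 := Nat.mod_add_div a (p ^ k)
    have h2 := Nat.mod_add_div b (p ^ k)
    have h3 := Nat.mod_add_div c (p ^ k)
    have : tot (a, b, c) - (a % p ^ k + b % p ^ k + c % p ^ k)
        = p ^ k * (a / p ^ k + b / p ^ k + c / p ^ k) := by
      simp only [tot]
      rw [mul_add, mul_add]
      omega
    rw [this, Nat.mul_div_cancel_left _ hpk]
  rw [hdiv]
  simp only [P]
  refine (((key a).mul (key b)).mul (key c)).trans ?_
  rw [pow_add, pow_add]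
  have : F p (p ^ k) ^ (a / p ^ k) * F p (a % p ^ k) * (F p (p ^ k) ^ (b / p ^ k) * F p (b % p ^ k))
      * (F p (p ^ k) ^ (c / p ^ k) * F p (c % p ^ k)) =
      F p (p ^ k) ^ (a / p ^ k) * F p (p ^ k) ^ (b / p ^ k) * F p (p ^ k) ^ (c / p ^ k) *
      (F p (a % p ^ k) * F p (b % p ^ k) * F p (c % p ^ k)) := by ring
  rw [this]

/-! ### Lipschitz functions -/

/-- Congruent triples of the same total have congruent values. -/
def Lip (p : ℕ) (G : ℕ × ℕ × ℕ → ℤ) : Prop :=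
  ∀ (k : ℕ) (x y : ℕ × ℕ × ℕ), tot x = tot y → x.1 ≡ y.1 [MOD p ^ k] →
    x.2.1 ≡ y.2.1 [MOD p ^ k] → x.2.2 ≡ y.2.2 [MOD p ^ k] → G x ≡ G y [ZMOD (p ^ k : ℕ)]

lemma Lip_P {p : ℕ} (hp : 0 < p) : Lip p (fun x => (P p x : ℤ)) := by
  intro k x y ht h1 h2 h3
  rcases Nat.eq_zero_or_pos k with rfl | hk
  · simp only [pow_zero, Nat.cast_one]; exact Int.modEq_one
  · rw [Int.natCast_modEq_iff]
    refine (P_modEq hp hk x).trans ?_
    refine Nat.ModEq.trans ?_ (P_modEq hp hk y).symm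
    rw [ht, show x.1 % p ^ k = y.1 % p ^ k from h1, show x.2.1 % p ^ k = y.2.1 % p ^ k from h2,
      show x.2.2 % p ^ k = y.2.2 % p ^ k from h3]

lemma Lip.mul {p : ℕ} {G H : ℕ × ℕ × ℕ → ℤ} (hG : Lip p G) (hH : Lip p H) :
    Lip p (fun x => G x * H x) := fun k x y ht h1 h2 h3 =>
  (hG k x y ht h1 h2 h3).mul (hH k x y ht h1 h2 h3)

lemma Lip.pow {p : ℕ} {G : ℕ × ℕ × ℕ → ℤ} (hG : Lip p G) (n : ℕ) :
    Lip p (fun x => G x ^ n) := fun k x y ht h1 h2 h3 =>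
  (hG k x y ht h1 h2 h3).pow n

lemma Lip_fst (p : ℕ) : Lip p (fun x => (x.1 : ℤ)) := fun k x y _ h1 _ _ => by
  rw [Int.natCast_modEq_iff]; exact h1

/-! ### The kernel -/

/-- `K_n(a,b,c) = (-1)^c (n-1-c)!/(a! b!)`. -/
def K (n : ℕ) (x : ℕ × ℕ × ℕ) : ℤ :=
  (-1) ^ x.2.2 * (((n - 1 - x.2.2)! / (x.1 ! * x.2.1 !) : ℕ) : ℤ)

lemma K_mul {n : ℕ} {x : ℕ × ℕ × ℕ} (h : tot x ≤ n - 1) :
    K n x * ((x.1 ! : ℤ) * (x.2.1 ! : ℤ)) = (-1) ^ x.2.2 * ((n - 1 - x.2.2)! : ℤ) := by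
  have hd : x.1 ! * x.2.1 ! ∣ (n - 1 - x.2.2)! := by
    refine (Nat.factorial_mul_factorial_dvd_factorial_add _ _).trans (Nat.factorial_dvd_factorial ?_)
    simp only [tot] at h
    omega
  unfold K
  rw [mul_assoc]
  congr 1
  have := Nat.div_mul_cancel hd
  exact_mod_cast this

lemma div_lem {p n' c : ℕ} (hp : 0 < p) (hn' : 0 < n') (hc : c ≤ p * n' - 1) :
    (p * n' - 1 - c) / p = n' - 1 - c / p ∧ c / p ≤ n' - 1 := by
  have h1 := Nat.div_add_mod c p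
  have h2 := Nat.mod_lt c hp
  have h3 : c / p < n' := by
    rw [Nat.div_lt_iff_lt_mul hp]
    have : 0 < p * n' := by positivity
    rw [mul_comm n' p]; omega
  refine ⟨?_, by omega⟩
  have h4 : p * n' - 1 - c = (p - 1 - c % p) + p * (n' - 1 - c / p) := by
    rw [Nat.mul_sub, Nat.mul_sub, mul_one]
    have h5 : p * (c / p) + p ≤ p * n' := by
      calc p * (c / p) + p = p * (c / p + 1) := by ring
        _ ≤ p * n' := Nat.mul_le_mul_left p (by omega)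
    omega
  rw [h4, Nat.add_mul_div_left _ _ hp, Nat.div_eq_of_lt (by omega), zero_add]

/-- Componentwise quotient. -/
def dv (p : ℕ) (x : ℕ × ℕ × ℕ) : ℕ × ℕ × ℕ := (x.1 / p, x.2.1 / p, x.2.2 / p)

/-- The exact recursion of the kernel. -/
lemma K_rec {p n' : ℕ} (hp : 0 < p) (hn' : 0 < n') {x : ℕ × ℕ × ℕ} (h : tot x ≤ p * n' - 1) :
    K (p * n') x * ((F p x.1 : ℤ) * (F p x.2.1 : ℤ)) =
      (-1) ^ (x.2.2 + x.2.2 / p) * (F p (p * n' - 1 - x.2.2) : ℤ) * (p : ℤ) ^ (n' - 1 - tot (dv p x))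
        * K n' (dv p x) ∧ tot (dv p x) ≤ n' - 1 := by
  obtain ⟨a, b, c⟩ := x
  have hc : c ≤ p * n' - 1 := by simp only [tot] at h; omega
  obtain ⟨hd1, hd2⟩ := div_lem hp hn' hc
  have htot : tot (dv p (a, b, c)) ≤ n' - 1 := by
    have h0 : a / p + b / p + c / p ≤ (a + b + c) / p :=
      (Nat.add_le_add_right Nat.div_add_div_le_add_div _).trans Nat.div_add_div_le_add_div
    have h1 := (div_lem hp hn' (c := a + b + c) h).2
    exact h0.trans h1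
  refine ⟨?_, htot⟩
  have hK := K_mul (n := p * n') (x := (a, b, c)) h
  have hK' := K_mul (n := n') (x := dv p (a, b, c)) htot
  simp only [dv] at hK hK' ⊢
  have ea := fact_eq hp a
  have eb := fact_eq hp b
  have ec := fact_eq hp (p * n' - 1 - c)
  rw [hd1] at ec
  have ea' : ((a ! : ℕ) : ℤ) = (F p a : ℤ) * (p : ℤ) ^ (a / p) * ((a / p)! : ℕ) := by
    rw [ea]; push_cast; ring
  have eb' : ((b ! : ℕ) : ℤ) = (F p b : ℤ) * (p : ℤ) ^ (b / p) * ((b / p)! : ℕ) := by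
    rw [eb]; push_cast; ring
  have ec' : (((p * n' - 1 - c)! : ℕ) : ℤ) = (F p (p * n' - 1 - c) : ℤ) * (p : ℤ) ^ (n' - 1 - c / p)
      * ((n' - 1 - c / p)! : ℕ) := by
    rw [ec]; push_cast; ring
  rw [ea', eb', ec'] at hK
  have hne : ((p : ℤ) ^ (a / p) * (p : ℤ) ^ (b / p) * (((a / p)! : ℕ) : ℤ) * (((b / p)! : ℕ) : ℤ)) ≠ 0 := by
    have h1 : (p : ℤ) ≠ 0 := by exact_mod_cast hp.ne'
    have h2 : (((a / p)! : ℕ) : ℤ) ≠ 0 := by exact_mod_cast (Nat.factorial_pos _).ne'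
    have h3 : (((b / p)! : ℕ) : ℤ) ≠ 0 := by exact_mod_cast (Nat.factorial_pos _).ne'
    exact mul_ne_zero (mul_ne_zero (mul_ne_zero (pow_ne_zero _ h1) (pow_ne_zero _ h1)) h2) h3
  apply mul_right_cancel₀ hne
  have hexp : (p : ℤ) ^ (n' - 1 - c / p)
      = (p : ℤ) ^ (n' - 1 - tot (a / p, b / p, c / p)) * (p : ℤ) ^ (a / p) * (p : ℤ) ^ (b / p) := by
    rw [← pow_add, ← pow_add]
    congr 1
    simp only [tot, dv] at htot ⊢
    omega
  have hsign : ((-1 : ℤ)) ^ (c + c / p) * (-1) ^ (c / p) = (-1) ^ c := by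
    rw [← pow_add, show c + c / p + c / p = c + 2 * (c / p) by ring, pow_add, pow_mul]
    simp
  calc K (p * n') (a, b, c) * ((F p a : ℤ) * (F p b : ℤ))
        * ((p : ℤ) ^ (a / p) * (p : ℤ) ^ (b / p) * (((a / p)! : ℕ) : ℤ) * (((b / p)! : ℕ) : ℤ))
      = K (p * n') (a, b, c) * ((F p a : ℤ) * (p : ℤ) ^ (a / p) * ((a / p)! : ℕ)
        * ((F p b : ℤ) * (p : ℤ) ^ (b / p) * ((b / p)! : ℕ))) := by ring
    _ = (-1) ^ c * ((F p (p * n' - 1 - c) : ℤ) * (p : ℤ) ^ (n' - 1 - c / p)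
      * ((n' - 1 - c / p)! : ℕ)) := hK
    _ = ((-1) ^ (c + c / p) * (-1) ^ (c / p)) * ((F p (p * n' - 1 - c) : ℤ)
        * ((p : ℤ) ^ (n' - 1 - tot (a / p, b / p, c / p)) * (p : ℤ) ^ (a / p) * (p : ℤ) ^ (b / p))
        * ((n' - 1 - c / p)! : ℕ)) := by rw [hsign, hexp]
    _ = ((-1) ^ (c + c / p) * (F p (p * n' - 1 - c) : ℤ)
        * (p : ℤ) ^ (n' - 1 - tot (a / p, b / p, c / p)) * ((p : ℤ) ^ (a / p) * (p : ℤ) ^ (b / p)))
        * ((-1) ^ (c / p) * ((n' - 1 - c / p)! : ℕ)) := by ring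
    _ = _ := by rw [← hK']; ring

/-- Reflection: `(-1)^(c + c/p) F(n-1-c) F(c) ≡ F(n-1)` modulo any `q ∣ n`, when `p ∣ n`. -/
lemma reflect {p n q : ℕ} (hn : 0 < n) (hpn : p ∣ n) (hq : q ∣ n) (c : ℕ) (hc : c ≤ n - 1) :
    ((-1) ^ (c + c / p) * (F p (n - 1 - c) : ℤ) * (F p c : ℤ)) ≡ (F p (n - 1) : ℤ)
      [ZMOD (q : ℕ)] := by
  induction c with
  | zero => simp [F]
  | succ c ih =>
    have ih' := ih (by omega)
    refine Int.ModEq.trans ?_ ih'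
    have e1 : n - 1 - c = (n - 1 - (c + 1)) + 1 := by omega
    have e2 : (n - 1 - (c + 1)) + 1 = n - (c + 1) := by omega
    by_cases h : p ∣ c + 1
    · have h' : p ∣ (n - 1 - (c + 1)) + 1 := by
        rw [e2]; exact Nat.dvd_sub hpn h
      rw [e1, F_succ_dvd h', F_succ_dvd h, Nat.succ_div_of_dvd h,
        show c + 1 + (c / p + 1) = c + c / p + 2 by ring, pow_add]
      simp
    · have h' : ¬ p ∣ (n - 1 - (c + 1)) + 1 := by
        rw [e2]; intro h2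
        apply h
        have := Nat.dvd_sub hpn h2
        rwa [show n - (n - (c + 1)) = c + 1 by omega] at this
      rw [e1, F_succ_not h', F_succ_not h, Nat.succ_div_of_not_dvd h, e2,
        show c + 1 + c / p = c + c / p + 1 by ring, pow_succ]
      push_cast [show c + 1 ≤ n by omega]
      have hn0 : (n : ℤ) ≡ 0 [ZMOD (q : ℕ)] := by
        rw [Int.modEq_zero_iff_dvd]; exact_mod_cast hq
      have : ((-1) ^ (c + c / p) * (-1) * (F p (n - 1 - (c + 1)) : ℤ) * ((F p c : ℤ) * ((c : ℤ) + 1)))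
          ≡ (-1) ^ (c + c / p) * ((F p (n - 1 - (c + 1)) : ℤ) * ((n : ℤ) - ((c : ℤ) + 1))) * (F p c : ℤ)
          [ZMOD (q : ℕ)] := by
        have e : (-1) ^ (c + c / p) * ((F p (n - 1 - (c + 1)) : ℤ) * ((n : ℤ) - ((c : ℤ) + 1))) * (F p c : ℤ)
          = ((-1) ^ (c + c / p) * (-1) * (F p (n - 1 - (c + 1)) : ℤ) * ((F p c : ℤ) * ((c : ℤ) + 1)))
            + n * ((-1) ^ (c + c / p) * (F p (n - 1 - (c + 1)) : ℤ) * (F p c : ℤ)) := by ring
        rw [e]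
        have h2 := (Int.ModEq.refl ((-1) ^ (c + c / p) * (-1) * (F p (n - 1 - (c + 1)) : ℤ)
          * ((F p c : ℤ) * ((c : ℤ) + 1)))).add (hn0.mul_right
          ((-1) ^ (c + c / p) * (F p (n - 1 - (c + 1)) : ℤ) * (F p c : ℤ)))
        simpa using h2.symm
      exact this

/-! ### Digit decomposition of the sum over triples -/

/-- low digits -/
def md (p : ℕ) (x : ℕ × ℕ × ℕ) : ℕ × ℕ × ℕ := (x.1 % p, x.2.1 % p, x.2.2 % p)

/-- digit triples of total `L` -/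
def Low (p L : ℕ) : Finset (ℕ × ℕ × ℕ) :=
  ((range p) ×ˢ (range p) ×ˢ (range p)).filter (fun x => tot x = L)

lemma mem_Low {p L : ℕ} {x : ℕ × ℕ × ℕ} :
    x ∈ Low p L ↔ (x.1 < p ∧ x.2.1 < p ∧ x.2.2 < p) ∧ tot x = L := by
  obtain ⟨a, b, c⟩ := x
  rw [Low, mem_filter, mem_product, mem_product]
  simp only [mem_range]

/-- `l + p x'` -/
def emb (p : ℕ) (l x : ℕ × ℕ × ℕ) : ℕ × ℕ × ℕ := (l.1 + p * x.1, l.2.1 + p * x.2.1, l.2.2 + p * x.2.2)

lemma tot_emb (p : ℕ) (l x : ℕ × ℕ × ℕ) : tot (emb p l x) = tot l + p * tot x := by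
  simp only [tot, emb]; ring

lemma tot_md_dv (p : ℕ) (x : ℕ × ℕ × ℕ) : tot x = tot (md p x) + p * tot (dv p x) := by
  have h1 := Nat.mod_add_div x.1 p
  have h2 := Nat.mod_add_div x.2.1 p
  have h3 := Nat.mod_add_div x.2.2 p
  simp only [tot, md, dv, mul_add]
  omega

lemma emb_md_dv (p : ℕ) (x : ℕ × ℕ × ℕ) : emb p (md p x) (dv p x) = x := by
  have h1 := Nat.mod_add_div x.1 p
  have h2 := Nat.mod_add_div x.2.1 p
  have h3 := Nat.mod_add_div x.2.2 p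
  simp only [emb, md, dv, h1, h2, h3]

lemma dv_emb {p : ℕ} {l x : ℕ × ℕ × ℕ} (h : l.1 < p ∧ l.2.1 < p ∧ l.2.2 < p) :
    dv p (emb p l x) = x := by
  have hp : 0 < p := by omega
  simp only [dv, emb, Nat.add_mul_div_left _ _ hp, Nat.div_eq_of_lt h.1, Nat.div_eq_of_lt h.2.1,
    Nat.div_eq_of_lt h.2.2, zero_add]

lemma md_emb {p : ℕ} {l x : ℕ × ℕ × ℕ} (h : l.1 < p ∧ l.2.1 < p ∧ l.2.2 < p) :
    md p (emb p l x) = l := by
  simp only [md, emb, Nat.add_mul_mod_self_left, Nat.mod_eq_of_lt h.1, Nat.mod_eq_of_lt h.2.1,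
    Nat.mod_eq_of_lt h.2.2]

lemma sum_T {p : ℕ} (hp : 0 < p) (M : ℕ) (f : ℕ × ℕ × ℕ → ℤ) :
    ∑ x ∈ T M, f x = ∑ L ∈ range (3 * p), if (L ≤ M ∧ p ∣ M - L) then
      ∑ x' ∈ T ((M - L) / p), ∑ l ∈ Low p L, f (emb p l x') else 0 := by
  have hmaps : ∀ x ∈ T M, tot (md p x) ∈ range (3 * p) := by
    intro x _
    have h1 := Nat.mod_lt x.1 hp
    have h2 := Nat.mod_lt x.2.1 hp
    have h3 := Nat.mod_lt x.2.2 hp
    simp only [mem_range, tot, md]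
    omega
  rw [← Finset.sum_fiberwise_of_maps_to hmaps]
  refine Finset.sum_congr rfl fun L _ => ?_
  split_ifs with hL
  · rw [← Finset.sum_product' (T ((M - L) / p)) (Low p L) (fun x' l => f (emb p l x'))]
    refine Finset.sum_bij' (fun x _ => (dv p x, md p x)) (fun y _ => emb p y.2 y.1) ?_ ?_ ?_ ?_ ?_
    · intro x hx
      rw [mem_filter, mem_T] at hx
      rw [mem_product, mem_T, mem_Low]
      have h := tot_md_dv p x
      rw [hx.1, hx.2] at h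
      refine ⟨?_, ⟨Nat.mod_lt _ hp, Nat.mod_lt _ hp, Nat.mod_lt _ hp⟩, hx.2⟩
      rw [h, Nat.add_sub_cancel_left, Nat.mul_div_cancel_left _ hp]
    · intro y hy
      rw [mem_product, mem_T, mem_Low] at hy
      rw [mem_filter, mem_T, tot_emb, md_emb hy.2.1]
      refine ⟨?_, hy.2.2⟩
      rw [hy.1, hy.2.2, Nat.mul_div_cancel' hL.2]
      omega
    · intro x _
      exact emb_md_dv p x
    · intro y hy
      rw [mem_product, mem_T, mem_Low] at hy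
      rw [dv_emb hy.2.1, md_emb hy.2.1]
    · intro x _
      rw [emb_md_dv]
  · apply Finset.sum_eq_zero
    intro x hx
    exfalso
    rw [mem_filter, mem_T] at hx
    have h := tot_md_dv p x
    rw [hx.1, hx.2] at h
    apply hL
    refine ⟨by omega, ?_⟩
    rw [h, Nat.add_sub_cancel_left]
    exact dvd_mul_right _ _

lemma sum_Low_sw {p L : ℕ} (f : ℕ × ℕ × ℕ → ℤ) :
    ∑ l ∈ Low p L, f (sw l) = ∑ l ∈ Low p L, f l := by
  refine Finset.sum_bij' (fun x _ => sw x) (fun x _ => sw x) ?_ ?_ ?_ ?_ ?_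
  · intro x hx
    rw [mem_Low] at hx ⊢
    rw [tot_sw]
    exact ⟨⟨hx.1.2.2, hx.1.2.1, hx.1.1⟩, hx.2⟩
  · intro x hx
    rw [mem_Low] at hx ⊢
    rw [tot_sw]
    exact ⟨⟨hx.1.2.2, hx.1.2.1, hx.1.1⟩, hx.2⟩
  · intro x _; rfl
  · intro x _; rfl
  · intro x _; rfl

lemma sw_emb (p : ℕ) (l x : ℕ × ℕ × ℕ) : sw (emb p l x) = emb p (sw l) (sw x) := rfl

/-! ### The main congruence -/

/-- An integer function inverse to `P` modulo `p ^ E`. -/
def W (p E : ℕ) (x : ℕ × ℕ × ℕ) : ℤ := (P p x : ℤ) ^ (Nat.totient (p ^ E) - 1)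

lemma W_mul {p : ℕ} (hp : p.Prime) (E : ℕ) (x : ℕ × ℕ × ℕ) :
    W p E x * (P p x : ℤ) ≡ 1 [ZMOD (p ^ E : ℕ)] := by
  have hpos : 0 < Nat.totient (p ^ E) := Nat.totient_pos.mpr (pow_pos hp.pos _)
  have h : W p E x * (P p x : ℤ) = ((P p x ^ Nat.totient (p ^ E) : ℕ) : ℤ) := by
    unfold W
    rw [← pow_succ, Nat.sub_add_cancel hpos]
    push_cast; rfl
  rw [h, ← Nat.cast_one (R := ℤ), Int.natCast_modEq_iff]
  exact Nat.ModEq.pow_totient (Nat.Coprime.pow_right _ (P_coprime hp x))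

lemma W_sw (p E : ℕ) (x : ℕ × ℕ × ℕ) : W p E (sw x) = W p E x := by
  unfold W; rw [P_sw]

lemma Lip_W {p : ℕ} (hp : 0 < p) (E : ℕ) : Lip p (W p E) := (Lip_P hp).pow _

/-- Congruence form of the recursion of the kernel. -/
lemma K_modEq {p n' E : ℕ} (hp : p.Prime) (hn' : 0 < n') (hE : p ^ E ∣ p * n') {x : ℕ × ℕ × ℕ}
    (h : tot x ≤ p * n' - 1) :
    K (p * n') x ≡ W p E x * ((F p (p * n' - 1) : ℤ) * (p : ℤ) ^ (n' - 1 - tot (dv p x))
      * K n' (dv p x)) [ZMOD (p ^ E : ℕ)] := by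
  have h1 := (K_rec hp.pos hn' h).1
  have hc : x.2.2 ≤ p * n' - 1 := by simp only [tot] at h; omega
  have h2 := reflect (p := p) (q := p ^ E) (Nat.mul_pos hp.pos hn') (dvd_mul_right p n') hE
    x.2.2 hc
  have h3 : K (p * n') x * (P p x : ℤ) ≡ (F p (p * n' - 1) : ℤ) * (p : ℤ) ^ (n' - 1 - tot (dv p x))
      * K n' (dv p x) [ZMOD (p ^ E : ℕ)] := by
    have e : K (p * n') x * (P p x : ℤ) = ((-1) ^ (x.2.2 + x.2.2 / p) *
        (F p (p * n' - 1 - x.2.2) : ℤ) * (F p x.2.2 : ℤ)) * ((p : ℤ) ^ (n' - 1 - tot (dv p x))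
        * K n' (dv p x)) := by
      simp only [P]
      push_cast
      linear_combination (F p x.2.2 : ℤ) * h1
    rw [e, mul_assoc (F p (p * n' - 1) : ℤ)]
    exact h2.mul_right _
  have h4 := h3.mul_left (W p E x)
  refine Int.ModEq.trans ?_ h4
  have h5 := (W_mul hp E x).mul_left (K (p * n') x)
  rw [mul_one] at h5
  refine h5.symm.trans ?_
  rw [show K (p * n') x * (W p E x * (P p x : ℤ)) = W p E x * (K (p * n') x * (P p x : ℤ)) by ring]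

theorem claim {p : ℕ} (hp : p.Prime) (m : ℕ) : ∀ (e n : ℕ), 0 < n → p ^ e ∣ n → ∀ M < n,
    ∀ G : ℕ × ℕ × ℕ → ℤ, Lip p G →
      ((p ^ e : ℕ) : ℤ) ∣ ∑ x ∈ T M, (G x - G (sw x)) * K n x ^ m := by
  intro e
  induction e with
  | zero => intro n _ _ M _ G _; simp
  | succ e ih =>
    intro n hn hdvd M hM G hG
    obtain ⟨n', rfl⟩ : p ∣ n := (dvd_pow_self p (by omega)).trans hdvd
    have hn' : 0 < n' := Nat.pos_of_mul_pos_left hn |> fun h => by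
      rcases Nat.eq_zero_or_pos n' with h0 | h0
      · subst h0; simp at hn
      · exact h0
    have hdvd' : p ^ e ∣ n' := by
      rw [pow_succ, mul_comm] at hdvd
      exact Nat.dvd_of_mul_dvd_mul_left hp.pos hdvd
    -- replace the kernel
    set Wm : ℕ × ℕ × ℕ → ℤ := fun x => W p (e + 1) x ^ m with hWm
    have hcong : ∑ x ∈ T M, (G x - G (sw x)) * K (p * n') x ^ m ≡
        ∑ x ∈ T M, (G x - G (sw x)) * (W p (e + 1) x * ((F p (p * n' - 1) : ℤ) *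
          (p : ℤ) ^ (n' - 1 - tot (dv p x)) * K n' (dv p x))) ^ m [ZMOD (p ^ (e + 1) : ℕ)] := by
      refine Int.ModEq.sum fun x hx => ?_
      rw [mem_T] at hx
      exact ((K_modEq hp hn' hdvd (by omega)).pow m).mul_left _
    rw [hcong.dvd_iff]
    rw [sum_T hp.pos M]
    refine Finset.dvd_sum fun L _ => ?_
    split_ifs with hL
    · obtain ⟨hL1, hL2⟩ := hL
      set M' := (M - L) / p with hM'
      have hML : M = L + p * M' := by
        rw [hM', Nat.mul_div_cancel' hL2]; omega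
      have hM'n : M' < n' := by
        have : p * M' < p * n' := by omega
        exact Nat.lt_of_mul_lt_mul_left this
      -- the averaged function
      set G' : ℕ × ℕ × ℕ → ℤ := fun x' => ∑ l ∈ Low p L, G (emb p l x') * Wm (emb p l x') with hG'
      have hLipGW : Lip p (fun x => G x * Wm x) := hG.mul ((Lip_W hp.pos (e + 1)).pow m)
      have hG'lip : ∀ (k : ℕ) (x y : ℕ × ℕ × ℕ), tot x = tot y → x.1 ≡ y.1 [MOD p ^ k] →
          x.2.1 ≡ y.2.1 [MOD p ^ k] → x.2.2 ≡ y.2.2 [MOD p ^ k] →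
          G' x ≡ G' y [ZMOD (p ^ (k + 1) : ℕ)] := by
        intro k x y ht h1 h2 h3
        refine Int.ModEq.sum fun l _ => ?_
        have hmul : ∀ a b c : ℕ, a ≡ b [MOD p ^ k] → c + p * a ≡ c + p * b [MOD p ^ (k + 1)] := by
          intro a b c hab
          refine Nat.ModEq.add_left _ ?_
          rw [pow_succ']
          exact Nat.ModEq.mul_left' p hab
        exact hLipGW (k + 1) (emb p l x) (emb p l y) (by rw [tot_emb, tot_emb, ht])
          (hmul _ _ _ h1) (hmul _ _ _ h2) (hmul _ _ _ h3)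
      -- division by `p`
      set base : ℕ × ℕ × ℕ → ℕ × ℕ × ℕ := fun x => (tot x, 0, 0) with hbase
      have htb : ∀ x, tot (base x) = tot x := by intro x; simp [hbase, tot]
      have hdiv : ∀ x, (p : ℤ) ∣ G' x - G' (base x) := by
        intro x
        have := hG'lip 0 (base x) x (htb x) (by rw [pow_zero]; exact Nat.modEq_one)
          (by rw [pow_zero]; exact Nat.modEq_one) (by rw [pow_zero]; exact Nat.modEq_one)
        have h2 := this.dvd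
        simpa using h2
      choose H hH using hdiv
      have hHlip : Lip p H := by
        intro k x y ht h1 h2 h3
        have hb : base x = base y := by simp [hbase, ht]
        have h4 := hG'lip k x y ht h1 h2 h3
        have h5 : (p : ℤ) * H x - (p : ℤ) * H y = G' x - G' y := by
          rw [← hH x, ← hH y, hb]; ring
        have h6 := h4.dvd
        rw [Int.modEq_iff_dvd]
        have h7 : ((p ^ (k + 1) : ℕ) : ℤ) ∣ (p : ℤ) * (H y - H x) := by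
          have : (p : ℤ) * (H y - H x) = G' y - G' x := by linarith
          rw [this]; exact h6
        rw [pow_succ'] at h7
        push_cast at h7 ⊢
        exact (mul_dvd_mul_iff_left (by exact_mod_cast hp.pos.ne')).mp h7
      have hsum : ∀ x' ∈ T M', ∑ l ∈ Low p L, (G (emb p l x') - G (sw (emb p l x'))) *
          (W p (e + 1) (emb p l x') * ((F p (p * n' - 1) : ℤ) *
          (p : ℤ) ^ (n' - 1 - tot (dv p (emb p l x'))) * K n' (dv p (emb p l x')))) ^ m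
          = ((F p (p * n' - 1) : ℤ) * (p : ℤ) ^ (n' - 1 - M')) ^ m * (p *
            ((H x' - H (sw x')) * K n' x' ^ m)) := by
        intro x' hx'
        rw [mem_T] at hx'
        have h1 : ∑ l ∈ Low p L, (G (emb p l x') - G (sw (emb p l x'))) *
          (W p (e + 1) (emb p l x') * ((F p (p * n' - 1) : ℤ) *
          (p : ℤ) ^ (n' - 1 - tot (dv p (emb p l x'))) * K n' (dv p (emb p l x')))) ^ m
          = ∑ l ∈ Low p L, (G (emb p l x') * Wm (emb p l x')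
            - G (emb p (sw l) (sw x')) * Wm (emb p (sw l) (sw x')))
            * (((F p (p * n' - 1) : ℤ) * (p : ℤ) ^ (n' - 1 - M')) ^ m * K n' x' ^ m) := by
          refine Finset.sum_congr rfl fun l hl => ?_
          rw [mem_Low] at hl
          rw [dv_emb hl.1, hx', ← sw_emb]
          simp only [hWm, W_sw]
          ring
        rw [h1, ← Finset.sum_mul, Finset.sum_sub_distrib]
        have h2 : ∑ l ∈ Low p L, G (emb p (sw l) (sw x')) * Wm (emb p (sw l) (sw x'))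
            = G' (sw x') := sum_Low_sw (fun l => G (emb p l (sw x')) * Wm (emb p l (sw x')))
        rw [h2]
        have h3 : base (sw x') = base x' := by simp [hbase, tot_sw]
        have h4 : ∑ l ∈ Low p L, G (emb p l x') * Wm (emb p l x') - G' (sw x')
            = p * (H x' - H (sw x')) := by
          have e1 := hH x'
          have e2 := hH (sw x')
          rw [h3] at e2
          have e3 : ∑ l ∈ Low p L, G (emb p l x') * Wm (emb p l x') = G' x' := rfl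
          rw [e3]; linarith
        rw [h4]; ring
      rw [Finset.sum_congr rfl hsum, ← Finset.mul_sum, ← Finset.mul_sum]
      refine Dvd.dvd.mul_left ?_ _
      have := ih n' hn' hdvd' M' hM'n H hHlip
      rw [pow_succ']
      push_cast
      refine mul_dvd_mul_left _ ?_
      exact_mod_cast this
    · exact dvd_zero _

/-! ### The sums `A` and `B` -/

/-- `A = ∑ (a - c) K^m`. -/
def A (n m : ℕ) : ℤ := ∑ x ∈ T (n - 1), ((x.1 : ℤ) - x.2.2) * K n x ^ m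

/-- `B = ∑ K^m`. -/
def B (n m : ℕ) : ℤ := ∑ x ∈ T (n - 1), K n x ^ m

lemma n_dvd_A {n : ℕ} (hn : 0 < n) (m : ℕ) : (n : ℤ) ∣ A n m := by
  rw [Int.natCast_dvd, Nat.dvd_iff_prime_pow_dvd_dvd]
  intro p k hp hpk
  rw [← Int.natCast_dvd]
  exact claim hp m k n hn hpk (n - 1) (by omega) (fun x => (x.1 : ℤ)) (Lip_fst p)

lemma K_top {n : ℕ} {x : ℕ × ℕ × ℕ} (hn : 0 < n) (h : tot x = n - 1) :
    K n x = (-1) ^ x.2.2 * ((x.1 + x.2.1).choose x.1 : ℤ) := by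
  unfold K
  have h1 : n - 1 - x.2.2 = x.1 + x.2.1 := by simp only [tot] at h; omega
  rw [h1, Nat.choose_symm_add, Nat.add_choose]

/-- Sum over the triangle as a double sum. -/
lemma double_sum {n : ℕ} (hn : 0 < n) (h : ℕ → ℕ → ℤ) :
    ∑ k ∈ range n, ∑ i ∈ range (k + 1), h k i = ∑ x ∈ T (n - 1), h (x.1 + x.2.1) x.1 := by
  rw [Finset.sum_sigma']
  refine Finset.sum_bij' (fun y _ => (y.2, y.1 - y.2, n - 1 - y.1))
    (fun x _ => ⟨x.1 + x.2.1, x.1⟩) ?_ ?_ ?_ ?_ ?_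
  · rintro ⟨k, i⟩ hy
    simp only [mem_sigma, mem_range] at hy
    rw [mem_T]
    simp only [tot]
    omega
  · rintro x hx
    rw [mem_T] at hx
    simp only [tot] at hx
    simp only [mem_sigma, mem_range]
    omega
  · rintro ⟨k, i⟩ hy
    simp only [mem_sigma, mem_range] at hy
    have e : i + (k - i) = k := by omega
    simp [e]
  · rintro ⟨a, b, c⟩ hx
    rw [mem_T] at hx
    simp only [tot] at hx
    have e1 : a + b - a = b := by omega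
    have e2 : n - 1 - (a + b) = c := by omega
    simp [e1, e2]
  · rintro ⟨k, i⟩ hy
    simp only [mem_sigma, mem_range] at hy
    simp only
    rw [show i + (k - i) = k by omega]

lemma sum_swap12 (n m : ℕ) (hn : 0 < n) :
    ∑ x ∈ T (n - 1), ((x.2.1 : ℤ) - x.2.2) * K n x ^ m = A n m := by
  unfold A
  refine Finset.sum_bij' (fun x _ => (x.2.1, x.1, x.2.2)) (fun x _ => (x.2.1, x.1, x.2.2))
    ?_ ?_ ?_ ?_ ?_
  · intro x hx
    rw [mem_T] at hx ⊢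
    simp only [tot] at hx ⊢
    omega
  · intro x hx
    rw [mem_T] at hx ⊢
    simp only [tot] at hx ⊢
    omega
  · intro x _; rfl
  · intro x _; rfl
  · intro x hx
    rw [mem_T] at hx
    have hx' : tot (x.2.1, x.1, x.2.2) = n - 1 := by
      simp only [tot] at hx ⊢; omega
    rw [K_top hn hx, K_top hn hx']
    simp only
    rw [Nat.choose_symm_add, add_comm x.1 x.2.1]

/-- The sum of the problem, `m = 2r + 1`. -/
def S (n m : ℕ) : ℤ := ∑ k ∈ range n, (-1) ^ k * (3 * k + 2) * ∑ i ∈ range (k + 1), (k.choose i : ℤ) ^ m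

lemma S_eq {n m : ℕ} (hn : 0 < n) (hm : Odd m) :
    S n m = (-1) ^ (n - 1) * (2 * (A n m + n * B n m)) := by
  have h1 : S n m = ∑ x ∈ T (n - 1), (-1) ^ (x.1 + x.2.1) * (3 * ((x.1 + x.2.1 : ℕ) : ℤ) + 2)
      * ((x.1 + x.2.1).choose x.1 : ℤ) ^ m := by
    unfold S
    rw [← double_sum hn (fun k i => (-1) ^ k * (3 * (k : ℤ) + 2) * (k.choose i : ℤ) ^ m)]
    refine Finset.sum_congr rfl fun k _ => ?_
    rw [Finset.mul_sum]
  have h2 : ∀ x ∈ T (n - 1), (-1) ^ (x.1 + x.2.1) * (3 * ((x.1 + x.2.1 : ℕ) : ℤ) + 2)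
      * ((x.1 + x.2.1).choose x.1 : ℤ) ^ m
      = (-1) ^ (n - 1) * ((((x.1 : ℤ) - x.2.2) * K n x ^ m + ((x.2.1 : ℤ) - x.2.2) * K n x ^ m)
        + 2 * n * K n x ^ m) := by
    intro x hx
    rw [mem_T] at hx
    rw [K_top hn hx, mul_pow, ← pow_mul, mul_comm x.2.2 m, pow_mul, hm.neg_one_pow]
    have h3 : x.1 + x.2.1 + x.2.2 = n - 1 := hx
    have h4 : (n : ℤ) = x.1 + x.2.1 + x.2.2 + 1 := by
      have : n = x.1 + x.2.1 + x.2.2 + 1 := by omega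
      exact_mod_cast this
    have h5 : ((-1 : ℤ)) ^ (n - 1) * (-1) ^ x.2.2 = (-1) ^ (x.1 + x.2.1) := by
      rw [← h3, pow_add, mul_assoc, ← pow_add, ← two_mul, pow_mul]
      simp
    rw [← h5, h4]
    push_cast
    ring
  rw [h1, Finset.sum_congr rfl h2, ← Finset.mul_sum, Finset.sum_add_distrib,
    Finset.sum_add_distrib, sum_swap12 n m hn, ← Finset.mul_sum]
  unfold A B
  ring

lemma S_one (n : ℕ) : S (n + 1) 1 = (-1) ^ n * (2 ^ (n + 1) * (n + 1 : ℕ)) := by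
  have h0 : ∀ k : ℕ, ∑ i ∈ range (k + 1), (k.choose i : ℤ) ^ 1 = 2 ^ k := by
    intro k
    simp only [pow_one]
    have := Nat.sum_range_choose k
    exact_mod_cast this
  induction n with
  | zero => simp [S]
  | succ n ih =>
    have : S (n + 1 + 1) 1 = S (n + 1) 1 + (-1) ^ (n + 1) * (3 * ((n + 1 : ℕ) : ℤ) + 2)
      * 2 ^ (n + 1) := by
      unfold S
      rw [Finset.sum_range_succ, h0 (n + 1)]
    rw [this, ih]
    push_cast
    ring

/-- For `n ≥ 2` the integer `A + nB` is even. -/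
lemma even_AB {n m : ℕ} (hn : 2 ≤ n) (hm : 1 ≤ m) : (2 : ℤ) ∣ A n m + n * B n m := by
  have hpar : ∀ z : ℤ, z ^ m ≡ z ^ 1 [ZMOD 2] := by
    intro z
    rcases Int.emod_two_eq_zero_or_one z with h | h
    · have h' : z ≡ 0 [ZMOD 2] := h
      refine (h'.pow m).trans ((h'.pow 1).trans ?_).symm
      rw [zero_pow (by omega), zero_pow (by omega)]
    · have h' : z ≡ 1 [ZMOD 2] := h
      refine (h'.pow m).trans ((h'.pow 1).trans ?_).symm
      simp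
  have hA : A n m ≡ A n 1 [ZMOD 2] := Int.ModEq.sum fun x _ => (hpar _).mul_left _
  have hB : B n m ≡ B n 1 [ZMOD 2] := Int.ModEq.sum fun x _ => hpar _
  have h1 : A n m + n * B n m ≡ A n 1 + n * B n 1 [ZMOD 2] := hA.add (hB.mul_left _)
  rw [h1.dvd_iff]
  obtain ⟨k, rfl⟩ : ∃ k, n = k + 1 + 1 := ⟨n - 2, by omega⟩
  have h2 := S_eq (n := k + 1 + 1) (m := 1) (by omega) odd_one
  rw [S_one] at h2
  rw [show k + 1 + 1 - 1 = k + 1 by omega] at h2
  have h3 : ((-1 : ℤ)) ^ (k + 1) ≠ 0 := pow_ne_zero _ (by norm_num)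
  have h4 := mul_left_cancel₀ h3 h2
  have h5 : A (k + 1 + 1) 1 + ((k + 1 + 1 : ℕ) : ℤ) * B (k + 1 + 1) 1
      = 2 ^ (k + 1) * ((k + 1 + 1 : ℕ) : ℤ) := by
    have : (2 : ℤ) * (A (k + 1 + 1) 1 + ((k + 1 + 1 : ℕ) : ℤ) * B (k + 1 + 1) 1)
      = 2 * (2 ^ (k + 1) * ((k + 1 + 1 : ℕ) : ℤ)) := by rw [← h4]; ring
    linarith
  rw [h5, pow_succ]
  exact ⟨2 ^ k * ((k + 1 + 1 : ℕ) : ℤ), by ring⟩

/-- `B` is odd. -/
lemma odd_B {n m : ℕ} (hn : 0 < n) (hm : 1 ≤ m) : B n m ≡ 1 [ZMOD 2] := by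
  have hpar : ∀ x ∈ T (n - 1), K n x ^ m ≡ ((x.1 + x.2.1).choose x.1 : ℤ) [ZMOD 2] := by
    intro x hx
    rw [mem_T] at hx
    rw [K_top hn hx]
    have h1 : ((-1 : ℤ)) ^ x.2.2 * ((x.1 + x.2.1).choose x.1 : ℤ)
        ≡ ((x.1 + x.2.1).choose x.1 : ℤ) [ZMOD 2] := by
      have : ((-1 : ℤ)) ^ x.2.2 ≡ 1 [ZMOD 2] := by
        have h2 : (-1 : ℤ) ≡ 1 [ZMOD 2] := by decide
        simpa using h2.pow x.2.2
      simpa using this.mul_right ((x.1 + x.2.1).choose x.1 : ℤ)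
    refine (h1.pow m).trans ?_
    generalize ((x.1 + x.2.1).choose x.1 : ℤ) = z
    rcases Int.emod_two_eq_zero_or_one z with h | h
    · have h' : z ≡ 0 [ZMOD 2] := h
      refine (h'.pow m).trans ?_
      rw [zero_pow (by omega)]
      exact h'.symm
    · have h' : z ≡ 1 [ZMOD 2] := h
      refine (h'.pow m).trans ?_
      rw [one_pow]
      exact h'.symm
  have h1 : B n m ≡ ∑ x ∈ T (n - 1), ((x.1 + x.2.1).choose x.1 : ℤ) [ZMOD 2] :=
    Int.ModEq.sum hpar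
  refine h1.trans ?_
  rw [← double_sum hn (fun k i => (k.choose i : ℤ))]
  have h0 : ∀ k : ℕ, ∑ i ∈ range (k + 1), (k.choose i : ℤ) = 2 ^ k := by
    intro k
    have := Nat.sum_range_choose k
    exact_mod_cast this
  simp only [h0]
  obtain ⟨k, rfl⟩ : ∃ k, n = k + 1 := ⟨n - 1, by omega⟩
  rw [Finset.sum_range_succ']
  have : ∑ i ∈ range k, (2 : ℤ) ^ (i + 1) ≡ 0 [ZMOD 2] := by
    rw [Int.modEq_zero_iff_dvd]
    exact Finset.dvd_sum fun i _ => dvd_pow_self 2 (by omega)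
  simpa using this.add_right (2 ^ 0)

/-! ### The refined congruence modulo powers of two -/

lemma reflect2 {n e : ℕ} (hn : 0 < n) (he : 1 ≤ e) (h : 2 ^ e ∣ n) (c : ℕ) (hc : c ≤ n - 1) :
    ((-1) ^ (c + c / 2) * (F 2 (n - 1 - c) : ℤ) * (F 2 c : ℤ)) ≡
      (F 2 (n - 1) : ℤ) * (1 + n * ((c - c / 2 : ℕ) : ℤ)) [ZMOD (2 ^ (e + 1) : ℕ)] := by
  obtain ⟨u, hu⟩ := h
  have hn2 : 2 ∣ n := by rw [hu]; exact Dvd.dvd.mul_right (dvd_pow_self 2 (by omega)) _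
  obtain ⟨n2, hn2'⟩ := hn2
  have h2n : ((2 ^ (e + 1) : ℕ) : ℤ) ∣ 2 * (n : ℤ) := by
    refine ⟨u, ?_⟩
    rw [hu]; push_cast; ring
  generalize (2 ^ (e + 1) : ℕ) = q at h2n ⊢
  induction c with
  | zero => simp [F]
  | succ c ih =>
    have ih' := ih (by omega)
    have e1 : n - 1 - c = (n - 1 - (c + 1)) + 1 := by omega
    have e2 : (n - 1 - (c + 1)) + 1 = n - (c + 1) := by omega
    by_cases h : 2 ∣ c + 1
    · have h' : 2 ∣ (n - 1 - (c + 1)) + 1 := by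
        rw [e2]; exact Nat.dvd_sub ⟨n2, hn2'⟩ h
      rw [e1, F_succ_dvd h'] at ih'
      rw [F_succ_dvd h, Nat.succ_div_of_dvd h,
        show c + 1 + (c / 2 + 1) = c + c / 2 + 2 by ring, pow_add,
        show c + 1 - (c / 2 + 1) = c - c / 2 by omega]
      simpa using ih'
    · have h' : ¬ 2 ∣ (n - 1 - (c + 1)) + 1 := by
        rw [e2]; omega
      rw [e1, F_succ_not h', e2] at ih'
      rw [F_succ_not h, Nat.succ_div_of_not_dvd h,
        show c + 1 + c / 2 = c + c / 2 + 1 by ring, pow_succ,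
        show c + 1 - c / 2 = (c - c / 2) + 1 by omega]
      push_cast [show c + 1 ≤ n by omega] at ih' ⊢
      obtain ⟨c2, hc2⟩ : 2 ∣ c := by omega
      set V : ℤ := (-1) ^ (c + c / 2) with hV
      set t : ℤ := ((c - c / 2 : ℕ) : ℤ) with ht
      -- the step
      have hs : V * (-1) * (F 2 (n - 1 - (c + 1)) : ℤ) * ((F 2 c : ℤ) * ((c : ℤ) + 1)) ≡
          (1 + n) * (V * ((F 2 (n - 1 - (c + 1)) : ℤ) * ((n : ℤ) - ((c : ℤ) + 1))) * (F 2 c : ℤ))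
          [ZMOD (q : ℕ)] := by
        rw [Int.modEq_iff_dvd]
        refine h2n.trans ⟨V * (F 2 (n - 1 - (c + 1)) : ℤ) * (F 2 c : ℤ) * ((n2 : ℤ) - c2), ?_⟩
        have e3 : (n : ℤ) = 2 * n2 := by exact_mod_cast hn2'
        have e4 : (c : ℤ) = 2 * c2 := by exact_mod_cast hc2
        rw [e3, e4]
        ring
      refine hs.trans ?_
      refine (ih'.mul_left (1 + (n : ℤ))).trans ?_
      rw [Int.modEq_iff_dvd]
      refine h2n.trans ⟨-((F 2 (n - 1) : ℤ) * t * n2), ?_⟩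
      have e3 : (n : ℤ) = 2 * n2 := by exact_mod_cast hn2'
      rw [e3]
      ring

lemma K_pow_modEq2 {n' e m : ℕ} (hn' : 0 < n') (he : 1 ≤ e) (hE : 2 ^ e ∣ 2 * n') (hm : Odd m)
    {x : ℕ × ℕ × ℕ} (h : tot x ≤ 2 * n' - 1) :
    K (2 * n') x ^ m ≡ (1 + ((2 * n' : ℕ) : ℤ) * ((x.2.2 - x.2.2 / 2 : ℕ) : ℤ)) *
      (W 2 (e + 1) x * ((F 2 (2 * n' - 1) : ℤ) * (2 : ℤ) ^ (n' - 1 - tot (dv 2 x))
      * K n' (dv 2 x))) ^ m [ZMOD (2 ^ (e + 1) : ℕ)] := by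
  have h1 := (K_rec (p := 2) (by norm_num) hn' h).1
  have hc : x.2.2 ≤ 2 * n' - 1 := by simp only [tot] at h; omega
  have h2 := reflect2 (n := 2 * n') (by omega) he hE x.2.2 hc
  set n : ℕ := 2 * n' with hn
  set t : ℤ := ((x.2.2 - x.2.2 / 2 : ℕ) : ℤ) with ht
  have h3 : K n x * (P 2 x : ℤ) ≡ (F 2 (n - 1) : ℤ) * (1 + n * t) * ((2 : ℤ) ^ (n' - 1 - tot (dv 2 x))
      * K n' (dv 2 x)) [ZMOD (2 ^ (e + 1) : ℕ)] := by
    have e : K n x * (P 2 x : ℤ) = ((-1) ^ (x.2.2 + x.2.2 / 2) *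
        (F 2 (n - 1 - x.2.2) : ℤ) * (F 2 x.2.2 : ℤ)) * ((2 : ℤ) ^ (n' - 1 - tot (dv 2 x))
        * K n' (dv 2 x)) := by
      simp only [P]
      push_cast at h1 ⊢
      linear_combination (F 2 x.2.2 : ℤ) * h1
    rw [e]
    exact h2.mul_right _
  have h5 := (W_mul Nat.prime_two (e + 1) x).mul_left (K n x)
  rw [mul_one] at h5
  have h6 : K n x ≡ W 2 (e + 1) x * ((F 2 (n - 1) : ℤ) * (1 + n * t) *
      ((2 : ℤ) ^ (n' - 1 - tot (dv 2 x)) * K n' (dv 2 x))) [ZMOD (2 ^ (e + 1) : ℕ)] := by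
    refine h5.symm.trans ?_
    rw [show K n x * (W 2 (e + 1) x * (P 2 x : ℤ)) = W 2 (e + 1) x * (K n x * (P 2 x : ℤ)) by ring]
    exact h3.mul_left _
  have h7 := h6.pow m
  refine h7.trans ?_
  -- `(1 + n t)^m ≡ 1 + n t`
  have h8 : (1 + (n : ℤ) * t) ^ m ≡ 1 + (n : ℤ) * t [ZMOD (2 ^ (e + 1) : ℕ)] := by
    obtain ⟨r, rfl⟩ := hm
    have hsq : (1 + (n : ℤ) * t) ^ 2 ≡ 1 [ZMOD (2 ^ (e + 1) : ℕ)] := by
      obtain ⟨u, hu⟩ := hE
      have h2n : ((2 ^ (e + 1) : ℕ) : ℤ) ∣ 2 * (n : ℤ) := by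
        refine ⟨u, ?_⟩
        rw [hu]; push_cast; ring
      refine Int.ModEq.symm ?_
      rw [Int.modEq_iff_dvd]
      refine h2n.trans ⟨t + n' * t ^ 2, ?_⟩
      have e3 : (n : ℤ) = 2 * n' := by rw [hn]; push_cast; ring
      rw [e3]; ring
    rw [pow_succ (1 + (n : ℤ) * t), pow_mul (1 + (n : ℤ) * t)]
    have := (hsq.pow r).mul_right (1 + (n : ℤ) * t)
    rwa [one_pow, one_mul] at this
  have h9 : (W 2 (e + 1) x * ((F 2 (n - 1) : ℤ) * (1 + n * t) *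
      ((2 : ℤ) ^ (n' - 1 - tot (dv 2 x)) * K n' (dv 2 x)))) ^ m
      = (1 + (n : ℤ) * t) ^ m * (W 2 (e + 1) x * ((F 2 (n - 1) : ℤ) *
      (2 : ℤ) ^ (n' - 1 - tot (dv 2 x)) * K n' (dv 2 x))) ^ m := by
    rw [← mul_pow]; ring
  rw [h9]
  exact h8.mul_right _

/-- `P` at the even triple `2x`. -/
def P0 (x : ℕ × ℕ × ℕ) : ℤ := (P 2 (emb 2 (0, 0, 0) x) : ℤ)

lemma F_two (a : ℕ) : F 2 (1 + 2 * a) = F 2 (0 + 2 * a) * (2 * a + 1) := by
  rw [show 1 + 2 * a = 2 * a + 1 by ring, F_succ_not (by omega), zero_add]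

lemma P_100 (x : ℕ × ℕ × ℕ) : (P 2 (emb 2 (1, 0, 0) x) : ℤ) = P0 x * (2 * x.1 + 1) := by
  simp only [P0, P, emb, F_two]; push_cast; ring

lemma P_010 (x : ℕ × ℕ × ℕ) : (P 2 (emb 2 (0, 1, 0) x) : ℤ) = P0 x * (2 * x.2.1 + 1) := by
  simp only [P0, P, emb, F_two]; push_cast; ring

lemma P_001 (x : ℕ × ℕ × ℕ) : (P 2 (emb 2 (0, 0, 1) x) : ℤ) = P0 x * (2 * x.2.2 + 1) := by
  simp only [P0, P, emb, F_two]; push_cast; ring

lemma P0_sw (x : ℕ × ℕ × ℕ) : P0 (sw x) = P0 x := by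
  unfold P0
  rw [show emb 2 (0, 0, 0) (sw x) = sw (emb 2 (0, 0, 0) x) from rfl, P_sw]

lemma Lip_emb {p : ℕ} {G : ℕ × ℕ × ℕ → ℤ} (hG : Lip p G) (l : ℕ × ℕ × ℕ) :
    Lip p (fun x => G (emb p l x)) := by
  intro k x y ht h1 h2 h3
  have hmul : ∀ a b c : ℕ, a ≡ b [MOD p ^ k] → c + p * a ≡ c + p * b [MOD p ^ k] :=
    fun a b c hab => Nat.ModEq.add_left _ (Nat.ModEq.mul_left _ hab)
  exact hG k _ _ (by rw [tot_emb, tot_emb, ht]) (hmul _ _ _ h1) (hmul _ _ _ h2) (hmul _ _ _ h3)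

lemma Lip_P0 : Lip 2 P0 := Lip_emb (Lip_P (by norm_num)) (0, 0, 0)

/-- The symmetric function `X^q + Y^q + Z^q + (X^q - Z^q)/(X - Z)`, `X = 2a+1` etc. -/
def N (q : ℕ) (x : ℕ × ℕ × ℕ) : ℤ :=
  (2 * (x.1 : ℤ) + 1) ^ q + (2 * (x.2.1 : ℤ) + 1) ^ q + (2 * (x.2.2 : ℤ) + 1) ^ q
    + ∑ i ∈ range q, (2 * (x.1 : ℤ) + 1) ^ i * (2 * (x.2.2 : ℤ) + 1) ^ (q - 1 - i)

lemma N_sw (q : ℕ) (x : ℕ × ℕ × ℕ) : N q (sw x) = N q x := by
  simp only [N, sw]
  rw [geom_sum₂_comm]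
  ring

lemma odd_modEq (a : ℤ) : 2 * a + 1 ≡ 1 [ZMOD 2] := by
  rw [Int.modEq_iff_dvd]; exact ⟨-a, by ring⟩

lemma N_even {q : ℕ} (hq : Odd q) (x : ℕ × ℕ × ℕ) : (2 : ℤ) ∣ N q x := by
  rw [← Int.modEq_zero_iff_dvd]
  have h1 : ∑ i ∈ range q, (2 * (x.1 : ℤ) + 1) ^ i * (2 * (x.2.2 : ℤ) + 1) ^ (q - 1 - i)
      ≡ ∑ i ∈ range q, 1 [ZMOD 2] := by
    refine Int.ModEq.sum fun i _ => ?_
    have := ((odd_modEq (x.1 : ℤ)).pow i).mul ((odd_modEq (x.2.2 : ℤ)).pow (q - 1 - i))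
    simpa using this
  have h2 : N q x ≡ 1 ^ q + 1 ^ q + 1 ^ q + ∑ i ∈ range q, 1 [ZMOD 2] :=
    ((((odd_modEq (x.1 : ℤ)).pow q).add ((odd_modEq (x.2.1 : ℤ)).pow q)).add
      ((odd_modEq (x.2.2 : ℤ)).pow q)).add h1
  refine h2.trans ?_
  obtain ⟨k, rfl⟩ := hq
  rw [Int.modEq_zero_iff_dvd]
  simp only [one_pow, sum_const, card_range, nsmul_eq_mul, mul_one]
  exact ⟨2 + k, by push_cast; ring⟩

lemma N_mul (q : ℕ) (x : ℕ × ℕ × ℕ) :
    2 * ((x.1 : ℤ) - x.2.2) * N q x =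
      (2 * (x.1 : ℤ) + 1 - 2 * x.2.2) * (2 * (x.1 : ℤ) + 1) ^ q
      + (2 * (x.1 : ℤ) - 2 * x.2.2) * (2 * (x.2.1 : ℤ) + 1) ^ q
      + (2 * (x.1 : ℤ) - (2 * x.2.2 + 1)) * (2 * (x.2.2 : ℤ) + 1) ^ q := by
  have h := (Commute.all (2 * (x.1 : ℤ) + 1) (2 * (x.2.2 : ℤ) + 1)).mul_geom_sum₂ q
  unfold N
  linear_combination h

/-- Half of `N`. -/
def kap (q : ℕ) (x : ℕ × ℕ × ℕ) : ℤ := N q x / 2

lemma two_kap {q : ℕ} (hq : Odd q) (x : ℕ × ℕ × ℕ) : 2 * kap q x = N q x :=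
  Int.mul_ediv_cancel' (N_even hq x)

lemma Lip_kap {q : ℕ} (hq : Odd q) : Lip 2 (kap q) := by
  intro k x y _ h1 h2 h3
  have hX : ∀ a b : ℕ, a ≡ b [MOD 2 ^ k] → (2 * (a : ℤ) + 1) ≡ (2 * (b : ℤ) + 1)
      [ZMOD (2 ^ (k + 1) : ℕ)] := by
    intro a b hab
    have : 2 * a + 1 ≡ 2 * b + 1 [MOD 2 ^ (k + 1)] := by
      refine Nat.ModEq.add_right _ ?_
      rw [pow_succ']
      exact Nat.ModEq.mul_left' 2 hab
    have h := (Int.natCast_modEq_iff (n := 2 ^ (k + 1))).mpr this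
    push_cast at h ⊢
    exact h
  have hN : N q x ≡ N q y [ZMOD (2 ^ (k + 1) : ℕ)] := by
    unfold N
    refine ((((hX _ _ h1).pow q).add ((hX _ _ h2).pow q)).add ((hX _ _ h3).pow q)).add ?_
    exact Int.ModEq.sum fun i _ => ((hX _ _ h1).pow i).mul ((hX _ _ h3).pow _)
  rw [← two_kap hq x, ← two_kap hq y] at hN
  rw [Int.modEq_iff_dvd] at hN ⊢
  rw [← mul_sub, pow_succ'] at hN
  push_cast at hN ⊢
  exact (mul_dvd_mul_iff_left (by norm_num)).mp hN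

/-- Application of the claim to `(a - c) D` with `D` symmetric. -/
lemma claim_sym {e n m : ℕ} (hn : 0 < n) (hd : 2 ^ e ∣ n) {M : ℕ} (hM : M < n)
    {D : ℕ × ℕ × ℕ → ℤ} (hD : Lip 2 D) (hs : ∀ x, D (sw x) = D x) :
    ((2 ^ e : ℕ) : ℤ) ∣ ∑ x ∈ T M, ((x.1 : ℤ) - x.2.2) * D x * K n x ^ m := by
  have := claim Nat.prime_two m e n hn hd M hM (fun x => (x.1 : ℤ) * D x) ((Lip_fst 2).mul hD)
  have e : ∑ x ∈ T M, ((x.1 : ℤ) - x.2.2) * D x * K n x ^ m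
      = ∑ x ∈ T M, ((x.1 : ℤ) * D x - ((sw x).1 : ℤ) * D (sw x)) * K n x ^ m := by
    refine Finset.sum_congr rfl fun x _ => ?_
    rw [hs]
    simp only [sw]
    ring
  rw [e]
  exact this

lemma F_odd (N : ℕ) : (F 2 N : ℤ) ≡ 1 [ZMOD 2] := by
  have h := F_coprime Nat.prime_two N
  have h2 : F 2 N % 2 = 1 := by
    rw [Nat.coprime_two_right] at h
    exact Nat.odd_iff.mp h
  have : (F 2 N : ℤ) % 2 = 1 := by omega
  exact this

lemma P0_odd (x : ℕ × ℕ × ℕ) : P0 x ≡ 1 [ZMOD 2] := by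
  unfold P0 P
  push_cast
  have := ((F_odd (emb 2 (0, 0, 0) x).1).mul (F_odd (emb 2 (0, 0, 0) x).2.1)).mul
    (F_odd (emb 2 (0, 0, 0) x).2.2)
  simpa using this

lemma modEq_of_eq {a b n : ℤ} (h : a = b) : a ≡ b [ZMOD n] := by rw [h]

lemma two_mul_of_odd {n q : ℕ} (h : (q : ℤ) ∣ 2 * (n : ℤ)) {z : ℤ} (hz : z ≡ 1 [ZMOD 2]) :
    (n : ℤ) * z ≡ n [ZMOD (q : ℕ)] := by
  rw [Int.modEq_iff_dvd] at hz ⊢
  obtain ⟨k, hk⟩ := hz
  refine h.trans ⟨k, ?_⟩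
  linear_combination (n : ℤ) * hk

theorem even_case {n' e m : ℕ} (hn' : 0 < n') (he : 1 ≤ e) (hE : 2 ^ e ∣ 2 * n') (hm : Odd m) :
    ((2 ^ (e + 1) : ℕ) : ℤ) ∣ A (2 * n') m + ((2 * n' : ℕ) : ℤ) * B (2 * n') m := by
  have hm1 : 1 ≤ m := by obtain ⟨r, rfl⟩ := hm; omega
  have hE' : 2 ^ (e - 1) ∣ n' := by
    obtain ⟨e', rfl⟩ : ∃ e', e = e' + 1 := ⟨e - 1, by omega⟩
    rw [pow_succ, mul_comm] at hE
    simpa using Nat.dvd_of_mul_dvd_mul_left (by norm_num) hE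
  have h2n : ((2 ^ (e + 1) : ℕ) : ℤ) ∣ 2 * ((2 * n' : ℕ) : ℤ) := by
    obtain ⟨u, hu⟩ := hE
    refine ⟨u, ?_⟩
    rw [hu]; push_cast; ring
  have hpow : ∀ z : ℤ, ((2 ^ (e - 1) : ℕ) : ℤ) ∣ z → ((2 ^ (e + 1) : ℕ) : ℤ) ∣ 4 * z := by
    intro z hz
    obtain ⟨w, hw⟩ := hz
    refine ⟨w, ?_⟩
    rw [hw, show e + 1 = (e - 1) + 2 by omega, pow_add]
    push_cast; ring
  -- exponents
  set q : ℕ := (Nat.totient (2 ^ (e + 1)) - 1) * m with hq
  have hqodd : Odd q := by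
    rw [hq, Nat.totient_prime_pow_succ Nat.prime_two]
    refine Odd.mul ?_ hm
    have h1 : Even (2 ^ e * (2 - 1)) := by
      simp only [Nat.add_one_sub_one, mul_one]
      exact (Nat.even_pow.mpr ⟨by norm_num, by omega⟩)
    have h2 : 1 ≤ 2 ^ e * (2 - 1) := by
      have : 0 < 2 ^ e := by positivity
      omega
    exact Nat.Even.sub_odd h2 h1 odd_one
  have hW : ∀ x, W 2 (e + 1) x ^ m = (P 2 x : ℤ) ^ q := by
    intro x; unfold W; rw [← pow_mul]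
  set F0 : ℤ := (F 2 (2 * n' - 1) : ℤ) with hF0
  set nn : ℤ := ((2 * n' : ℕ) : ℤ) with hnn
  -- the summand after replacing the kernel
  set f : ℕ × ℕ × ℕ → ℤ := fun x => ((x.1 : ℤ) - x.2.2) *
    ((1 + nn * ((x.2.2 - x.2.2 / 2 : ℕ) : ℤ)) *
      (W 2 (e + 1) x * (F0 * (2 : ℤ) ^ (n' - 1 - tot (dv 2 x)) * K n' (dv 2 x))) ^ m) with hf
  have hA : A (2 * n') m ≡ ∑ x ∈ T (2 * n' - 1), f x [ZMOD (2 ^ (e + 1) : ℕ)] := by
    unfold A
    refine Int.ModEq.sum fun x hx => ?_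
    rw [mem_T] at hx
    exact (K_pow_modEq2 hn' he hE hm hx.le).mul_left _
  rw [sum_T (p := 2) (by norm_num) (2 * n' - 1) f] at hA
  -- the symmetric function
  set D : ℕ × ℕ × ℕ → ℤ := fun x => kap q x * P0 x ^ q with hD
  have hDlip : Lip 2 D := (Lip_kap hqodd).mul (Lip_P0.pow q)
  have hDsw : ∀ x, D (sw x) = D x := by
    intro x
    simp only [hD, P0_sw]
    unfold kap
    rw [N_sw]
  -- part `L = 1`
  have h1 : ∑ x' ∈ T (n' - 1), ∑ l ∈ Low 2 1, f (emb 2 l x') ≡ nn [ZMOD (2 ^ (e + 1) : ℕ)] := by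
    have hterm : ∀ x' ∈ T (n' - 1), ∑ l ∈ Low 2 1, f (emb 2 l x') ≡
        F0 ^ m * (4 * (((x'.1 : ℤ) - x'.2.2) * D x' * K n' x' ^ m) + nn * K n' x' ^ m)
        [ZMOD (2 ^ (e + 1) : ℕ)] := by
      intro x' hx'
      rw [mem_T] at hx'
      have hL : Low 2 1 = {(1, 0, 0), (0, 1, 0), (0, 0, 1)} := by decide
      rw [hL, Finset.sum_insert (by decide), Finset.sum_insert (by decide), Finset.sum_singleton]
      have ht0 : n' - 1 - tot x' = 0 := by omega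
      have d1 : dv 2 (emb 2 (1, 0, 0) x') = x' := dv_emb (by norm_num)
      have d2 : dv 2 (emb 2 (0, 1, 0) x') = x' := dv_emb (by norm_num)
      have d3 : dv 2 (emb 2 (0, 0, 1) x') = x' := dv_emb (by norm_num)
      simp only [hf, d1, d2, d3, ht0, pow_zero, mul_one, mul_pow, hW, P_100, P_010, P_001]
      simp only [emb]
      rw [show 0 + 2 * x'.2.2 - (0 + 2 * x'.2.2) / 2 = x'.2.2 by omega,
        show 1 + 2 * x'.2.2 - (1 + 2 * x'.2.2) / 2 = x'.2.2 + 1 by omega]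
      push_cast
      have hN := N_mul q x'
      rw [← two_kap hqodd x'] at hN
      set X : ℤ := (2 * (x'.1 : ℤ) + 1) ^ q with hX
      set Y : ℤ := (2 * (x'.2.1 : ℤ) + 1) ^ q with hY
      set Z : ℤ := (2 * (x'.2.2 : ℤ) + 1) ^ q with hZ
      have hXo : X ≡ 1 [ZMOD 2] := by simpa using (odd_modEq (x'.1 : ℤ)).pow q
      have hZo : Z ≡ 1 [ZMOD 2] := by simpa using (odd_modEq (x'.2.2 : ℤ)).pow q
      have hPo : P0 x' ^ q ≡ 1 [ZMOD 2] := by simpa using (P0_odd x').pow q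
      set R : ℤ := (1 + 2 * (x'.1 : ℤ) - 2 * x'.2.2) * x'.2.2 * X
        + (2 * (x'.1 : ℤ) - 2 * x'.2.2) * x'.2.2 * Y
        + (2 * (x'.1 : ℤ) - (1 + 2 * x'.2.2)) * (x'.2.2 + 1) * Z with hR
      have hRo : R ≡ 1 [ZMOD 2] := by
        have g1 : (1 + 2 * (x'.1 : ℤ) - 2 * x'.2.2) * x'.2.2 ≡ x'.2.2 [ZMOD 2] := by
          rw [Int.modEq_iff_dvd]
          exact ⟨-((x'.1 : ℤ) - x'.2.2) * x'.2.2, by ring⟩
        have g2 : (2 * (x'.1 : ℤ) - 2 * x'.2.2) * x'.2.2 * Y ≡ 0 [ZMOD 2] := by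
          rw [Int.modEq_iff_dvd]
          exact ⟨-((x'.1 : ℤ) - x'.2.2) * x'.2.2 * Y, by ring⟩
        have g3 : (2 * (x'.1 : ℤ) - (1 + 2 * x'.2.2)) * (x'.2.2 + 1) ≡ x'.2.2 + 1 [ZMOD 2] := by
          rw [Int.modEq_iff_dvd]
          exact ⟨-((x'.1 : ℤ) - x'.2.2 - 1) * (x'.2.2 + 1), by ring⟩
        have g4 := ((g1.mul hXo).add g2).add (g3.mul hZo)
        refine g4.trans ?_
        rw [Int.modEq_iff_dvd]
        exact ⟨-x'.2.2, by ring⟩
      have hfin : nn * (P0 x' ^ q * R) ≡ nn [ZMOD (2 ^ (e + 1) : ℕ)] :=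
        two_mul_of_odd h2n (by simpa using hPo.mul hRo)
      have hfin2 := (hfin.mul_left (F0 ^ m * K n' x' ^ m)).add_left
        (F0 ^ m * (4 * (((x'.1 : ℤ) - x'.2.2) * D x' * K n' x' ^ m)))
      have e2 : F0 ^ m * (4 * (((x'.1 : ℤ) - x'.2.2) * D x' * K n' x' ^ m))
          + F0 ^ m * K n' x' ^ m * nn = F0 ^ m * (4 * (((x'.1 : ℤ) - x'.2.2) * D x' * K n' x' ^ m)
          + nn * K n' x' ^ m) := by ring
      rw [e2] at hfin2
      refine Int.ModEq.trans ?_ hfin2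
      refine modEq_of_eq ?_
      simp only [hD]
      linear_combination (-(F0 ^ m * K n' x' ^ m * P0 x' ^ q)) * hN
    have hsum : ∑ x' ∈ T (n' - 1), ∑ l ∈ Low 2 1, f (emb 2 l x') ≡
        ∑ x' ∈ T (n' - 1), F0 ^ m * (4 * (((x'.1 : ℤ) - x'.2.2) * D x' * K n' x' ^ m)
          + nn * K n' x' ^ m) [ZMOD (2 ^ (e + 1) : ℕ)] := Int.ModEq.sum hterm
    refine hsum.trans ?_
    rw [← Finset.mul_sum, Finset.sum_add_distrib, ← Finset.mul_sum, ← Finset.mul_sum]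
    have hdiv := hpow _ (claim_sym (m := m) hn' hE' (M := n' - 1) (by omega) hDlip hDsw)
    have hB : F0 ^ m * B n' m ≡ 1 [ZMOD 2] := by
      simpa using ((F_odd (2 * n' - 1)).pow m).mul (odd_B hn' hm1)
    have h3 : nn * (F0 ^ m * B n' m) ≡ nn [ZMOD (2 ^ (e + 1) : ℕ)] := two_mul_of_odd h2n hB
    have h4 : F0 ^ m * (4 * ∑ x ∈ T (n' - 1), ((x.1 : ℤ) - x.2.2) * D x * K n' x ^ m)
        ≡ 0 [ZMOD (2 ^ (e + 1) : ℕ)] := by
      rw [Int.modEq_zero_iff_dvd]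
      exact Dvd.dvd.mul_left hdiv _
    have h5 := h4.add h3
    rw [zero_add] at h5
    refine Int.ModEq.trans (modEq_of_eq ?_) h5
    unfold B
    ring
  -- part `L = 3`
  have h3 : 3 ≤ 2 * n' - 1 → ∑ x' ∈ T ((2 * n' - 1 - 3) / 2), ∑ l ∈ Low 2 3, f (emb 2 l x') ≡ 0
      [ZMOD (2 ^ (e + 1) : ℕ)] := by
    intro h3n
    have hn2 : (2 * n' - 1 - 3) / 2 = n' - 2 := by omega
    rw [hn2]
    have hterm : ∀ x' ∈ T (n' - 2), ∑ l ∈ Low 2 3, f (emb 2 l x') ≡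
        F0 ^ m * 2 ^ (m - 1) * (4 * (((x'.1 : ℤ) - x'.2.2) * (W 2 (e + 1) (emb 2 (1, 1, 1) x')) ^ m
          * K n' x' ^ m)) [ZMOD (2 ^ (e + 1) : ℕ)] := by
      intro x' hx'
      rw [mem_T] at hx'
      have hL : Low 2 3 = {(1, 1, 1)} := by decide
      rw [hL, Finset.sum_singleton]
      have ht0 : n' - 1 - tot x' = 1 := by omega
      have d1 : dv 2 (emb 2 (1, 1, 1) x') = x' := dv_emb (by norm_num)
      simp only [hf, d1, ht0, pow_one]
      have hx1 : ((emb 2 (1, 1, 1) x').1 : ℤ) = 1 + 2 * x'.1 := by simp only [emb]; push_cast; ring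
      have hx2 : ((emb 2 (1, 1, 1) x').2.2 : ℤ) = 1 + 2 * x'.2.2 := by
        simp only [emb]; push_cast; ring
      rw [hx1, hx2]
      generalize (((emb 2 (1, 1, 1) x').2.2 - (emb 2 (1, 1, 1) x').2.2 / 2 : ℕ) : ℤ) = t
      generalize W 2 (e + 1) (emb 2 (1, 1, 1) x') = w
      obtain ⟨m', rfl⟩ : ∃ m', m = m' + 1 := ⟨m - 1, by omega⟩
      rw [Int.modEq_iff_dvd]
      refine h2n.trans ⟨-(((x'.1 : ℤ) - x'.2.2) * t * (w * (F0 * 2 * K n' x')) ^ (m' + 1)), ?_⟩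
      rw [Nat.add_sub_cancel]
      ring
    refine (Int.ModEq.sum hterm).trans ?_
    rw [← Finset.mul_sum, ← Finset.mul_sum, Int.modEq_zero_iff_dvd]
    refine Dvd.dvd.mul_left (hpow _ ?_) _
    refine claim_sym hn' hE' (by omega) ((Lip_emb (Lip_W (by norm_num) (e + 1)) (1, 1, 1)).pow m) ?_
    intro x
    rw [show emb 2 (1, 1, 1) (sw x) = sw (emb 2 (1, 1, 1) x) from rfl, W_sw]
  -- assemble
  have hAfin : A (2 * n') m ≡ nn [ZMOD (2 ^ (e + 1) : ℕ)] := by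
    refine hA.trans ?_
    have hodd0 : ¬ (0 ≤ 2 * n' - 1 ∧ 2 ∣ 2 * n' - 1 - 0) := by omega
    have hodd2 : ¬ (2 ≤ 2 * n' - 1 ∧ 2 ∣ 2 * n' - 1 - 2) := by omega
    have hodd4 : ¬ (4 ≤ 2 * n' - 1 ∧ 2 ∣ 2 * n' - 1 - 4) := by omega
    have hodd1 : (1 ≤ 2 * n' - 1 ∧ 2 ∣ 2 * n' - 1 - 1) := by omega
    have h5 : Low 2 5 = ∅ := by decide
    rw [show 3 * 2 = 6 by norm_num]
    simp only [Finset.sum_range_succ, Finset.sum_range_zero]
    rw [if_neg hodd0, if_neg hodd2, if_neg hodd4, if_pos hodd1, h5,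
      show (2 * n' - 1 - 1) / 2 = n' - 1 by omega]
    simp only [Finset.sum_empty, Finset.sum_const_zero, ite_self, add_zero, zero_add]
    by_cases hc : 3 ≤ 2 * n' - 1
    · rw [if_pos ⟨hc, by omega⟩]
      simpa using h1.add (h3 hc)
    · rw [if_neg (fun h => hc h.1), add_zero]
      exact h1
  have hBfin : nn * B (2 * n') m ≡ nn [ZMOD (2 ^ (e + 1) : ℕ)] :=
    two_mul_of_odd h2n (odd_B (by omega) hm1)
  have hfin := hAfin.add hBfin
  rw [hfin.dvd_iff]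
  rw [← two_mul]
  exact h2n

/-- **MP_97e2c3_nt, Q1 (answer: yes).** For every `n > 1` and every `r ≥ 0`,
`∑_{k<n} (-1)^k (3k+2) ∑_i C(k,i)^(2r+1) ≡ 0 (mod 4n)`. -/
theorem result (n : ℕ) (hn : 1 < n) (r : ℕ) :
    ∑ k ∈ range n, (-1 : ℤ) ^ k * (3 * (k : ℤ) + 2)
      * ∑ i ∈ range (k + 1), (k.choose i : ℤ) ^ (2 * r + 1) ≡ 0 [ZMOD (4 * n : ℕ)] := by
  rw [Int.modEq_zero_iff_dvd]
  have hm : Odd (2 * r + 1) := ⟨r, rfl⟩
  have hS := S_eq (n := n) (m := 2 * r + 1) (by omega) hm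
  unfold S at hS
  rw [hS]
  refine Dvd.dvd.mul_left ?_ _
  have hgoal : ((2 * n : ℕ) : ℤ) ∣ A n (2 * r + 1) + n * B n (2 * r + 1) := by
    -- odd part
    obtain ⟨e, u, hu, hnu⟩ := Nat.exists_eq_two_pow_mul_odd (n := n) (by omega)
    have hodd : (u : ℤ) ∣ A n (2 * r + 1) + n * B n (2 * r + 1) := by
      have h1 := n_dvd_A (n := n) (by omega) (2 * r + 1)
      have h2 : (n : ℤ) ∣ A n (2 * r + 1) + n * B n (2 * r + 1) := dvd_add h1 (dvd_mul_right _ _)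
      exact (Int.natCast_dvd_natCast.mpr ⟨2 ^ e, by rw [hnu]; ring⟩).trans h2
    have heven : ((2 ^ (e + 1) : ℕ) : ℤ) ∣ A n (2 * r + 1) + n * B n (2 * r + 1) := by
      rcases Nat.eq_zero_or_pos e with rfl | he
      · simpa using even_AB (n := n) (m := 2 * r + 1) (by omega) (by omega)
      · obtain ⟨n', hn'⟩ : 2 ∣ n := by
          rw [hnu]; exact Dvd.dvd.mul_right (dvd_pow_self 2 (by omega)) _
        subst hn'
        exact even_case (by omega) he ⟨u, hnu⟩ hm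
    have hcop : IsCoprime (((2 ^ (e + 1) : ℕ)) : ℤ) (u : ℤ) := by
      rw [Nat.isCoprime_iff_coprime]
      exact Nat.Coprime.pow_left _ (Nat.coprime_two_left.mpr hu)
    have := hcop.mul_dvd heven hodd
    refine (dvd_of_eq ?_).trans this
    rw [hnu]
    push_cast
    ring
  obtain ⟨k, hk⟩ := hgoal
  rw [hk]
  exact ⟨k, by push_cast; ring⟩

end Pool.Agent.Results.MP_97e2c3_nt.DivFourN
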